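import Pool.Agent.H211.AD.Stm5
import Pool.Graph.R_seed8.W746.LD.Koebe

/-! Task UNI of project AD (helper211), by helper122: univalent branches at frontier points have
small images. -/

set_option autoImplicit false

open Metric Set MeasureTheory Filter Topology

namespace Pool.Agent.H122.AD211

open Pool.Agent.H211.AD
open Pool.Agent.W746.LD (Univ KC exists_KC)

theorem br_inj {f : ℂ → ℂ} {U : Set ℂ} {n : ℕ} {y : ℂ} {R : ℝ} {g : ℂ → ℂ}
    (hg : IsBr f U n y R g) : InjOn g (ball y R) := by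
  intro a ha b hb hab
  rw [← (hg.2 a ha).2, ← (hg.2 b hb).2, hab]

theorem br_univ {f : ℂ → ℂ} {U : Set ℂ} {n : ℕ} {y : ℂ} {R : ℝ} {g : ℂ → ℂ}
    (hg : IsBr f U n y R g) : Univ g y R := ⟨hg.1, br_inj hg⟩

/-- finite minimum -/
theorem exists_pos_le {α : Type} (s : Finset α) (e : α → ℝ) :
    ∃ ε > (0 : ℝ), ∀ i ∈ s, 0 < e i → ε ≤ e i := by
  classical
  induction s using Finset.induction_on with
  | empty => exact ⟨1, one_pos, by simp⟩
  | insert a s _ ih =>
    obtain ⟨ε, hε, h⟩ := ih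
    by_cases ha : 0 < e a
    · refine ⟨min ε (e a), lt_min hε ha, ?_⟩
      intro i hi hi0
      rcases Finset.mem_insert.1 hi with rfl | hi
      · exact min_le_right _ _
      · exact (min_le_left _ _).trans (h i hi hi0)
    · refine ⟨ε, hε, ?_⟩
      intro i hi hi0
      rcases Finset.mem_insert.1 hi with rfl | hi
      · exact absurd hi0 ha
      · exact h i hi hi0

/-- forward iterates stay in `K` -/
theorem iter_mem {f : ℂ → ℂ} {K : Set ℂ} (fwd : ∀ z ∈ K, f z ∈ K) {z : ℂ} (hz : z ∈ K) (n : ℕ) :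
    f^[n] z ∈ K := by
  induction n with
  | zero => exact hz
  | succ n ih =>
    rw [Function.iterate_succ_apply']
    exact fwd _ ih

/-- backward -/
theorem iter_back {f : ℂ → ℂ} {U K : Set ℂ} (bwd : ∀ z ∈ U, f z ∈ K → z ∈ K) (n : ℕ) {z : ℂ}
    (hz : ∀ i < n, f^[i] z ∈ U) (h : f^[n] z ∈ K) : z ∈ K := by
  induction n with
  | zero => exact h
  | succ n ih =>
    apply ih (fun i hi => hz i (Nat.lt_succ_of_lt hi))
    rw [Function.iterate_succ_apply'] at h
    exact bwd _ (hz n (Nat.lt_succ_self n)) h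

theorem t_UNI : S_UNI := by
  obtain ⟨C0, c0, KK⟩ := exists_KC
  have hc0 := KK.pos
  intro f U K Cr ℓ δ₀ Cp rp c₀ μ S η hη
  have hKc : IsClosed K := S.cpt.isClosed
  have hFK : frontier K ⊆ K := hKc.frontier_subset
  have hFc : IsCompact (frontier K) := S.cpt.of_isClosed_subset isClosed_frontier hFK
  set η' : ℝ := c0 * η / 2 with hη'
  have hη'0 : 0 < η' := by positivity
  -- the points outside of `K`
  have hp : ∀ z : ℂ, ∃ p : ℂ, z ∈ frontier K → p ∈ ball z η' ∧ p ∉ K := by
    intro z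
    by_cases hz : z ∈ frontier K
    · have h1 : z ∈ closure Kᶜ := by
        rw [frontier_eq_closure_inter_closure] at hz
        exact hz.2
      obtain ⟨p, hpK, hd⟩ := Metric.mem_closure_iff.1 h1 η' hη'0
      refine ⟨p, fun _ => ⟨?_, hpK⟩⟩
      rw [mem_ball, dist_comm]
      exact hd
    · exact ⟨0, fun h => absurd h hz⟩
  choose p hp using hp
  -- the times
  have hT : ∀ z : ℂ, ∃ T : ℕ, z ∈ frontier K → ∀ n ≥ T, p z ∉ E f U K δ₀ n := by
    intro z
    by_cases hz : z ∈ frontier K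
    · have hne : K.Nonempty := ⟨z, hFK hz⟩
      have h1 : 0 < infDist (p z) K := (hKc.notMem_iff_infDist_pos hne).1 (hp z hz).2
      obtain ⟨T, hT⟩ := S.late (infDist (p z) K / 2) (by linarith)
      refine ⟨T, fun _ n hn hE => ?_⟩
      have h2 := hT n hn hE
      have h3 := ENNReal.toReal_le_of_le_ofReal (by linarith) (mem_cthickening_iff.1 h2)
      change infDist (p z) K ≤ _ at h3
      linarith
    · exact ⟨0, fun h => absurd h hz⟩
  choose T hT using hT
  obtain ⟨t, htF, htc⟩ := hFc.elim_finite_subcover_image (b := frontier K) (c := fun z => ball z η')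
    (fun _ _ => isOpen_ball) (fun z hz => mem_iUnion₂.2 ⟨z, hz, mem_ball_self hη'0⟩)
  obtain ⟨htfin, htc⟩ := htc
  set s : Finset ℂ := htfin.toFinset with hs
  set T₁ : ℕ := s.sup T with hT₁
  obtain ⟨ε, hε, hεs⟩ := exists_pos_le (s ×ˢ Finset.range T₁)
    (fun q : ℂ × ℕ => dist (f^[q.2] (p q.1)) (f^[q.2] q.1))
  refine ⟨ε / 2, by positivity, T₁, ?_⟩
  intro z hz m R g hR hRδ hg hgz hor
  by_contra hcon
  push Not at hcon
  -- the image of the branch is large
  have hbig : ∀ a ∈ ball z (2 * η'), ∃ x ∈ ball (f^[m] z) R, g x = a := by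
    intro a ha
    by_contra hno
    push Not at hno
    have h1 := KK.komit g (f^[m] z) R hR (br_univ hg) a hno
    rw [hgz] at h1
    have h2 : ‖z - a‖ < 2 * η' := by
      rw [mem_ball, dist_comm, dist_eq_norm] at ha
      exact ha
    have h3 : c0 * η < c0 * (‖deriv g (f^[m] z)‖ * R) := by gcongr
    have h4 : c0 * (‖deriv g (f^[m] z)‖ * R) = c0 * R * ‖deriv g (f^[m] z)‖ := by ring
    have h5 : 2 * η' = c0 * η := by rw [hη']; ring
    linarith
  obtain ⟨z', hz't, hz'⟩ := mem_iUnion₂.1 (htc hz)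
  have hz'F : z' ∈ frontier K := htF hz't
  have hz's : z' ∈ s := by rw [hs, Set.Finite.mem_toFinset]; exact hz't
  have hd1 : dist z z' < η' := hz'
  have hd2 : dist (p z') z' < η' := (hp z' hz'F).1
  obtain ⟨x, hx, hgx⟩ := hbig (p z') (by
    rw [mem_ball]
    have := dist_triangle_right (p z') z z'
    linarith)
  obtain ⟨x', hx', hgx'⟩ := hbig z' (by
    rw [mem_ball, dist_comm]
    linarith)
  have hx1 := hg.2 x hx
  have hx2 := hg.2 x' hx'
  rw [hgx] at hx1
  rw [hgx'] at hx2
  have hzK : z ∈ K := hFK hz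
  have hyK : f^[m] z ∈ K := iter_mem S.fwd hzK m
  -- `p z' ∈ E m`
  have hE : p z' ∈ E f U K δ₀ m := by
    refine ⟨hx1.1, ?_⟩
    rw [hx1.2]
    refine mem_cthickening_of_dist_le x (f^[m] z) δ₀ K hyK ?_
    exact (mem_ball.1 hx).le.trans hRδ
  have hmT : m < T z' := by
    by_contra h
    push Not at h
    exact hT z' hz'F m h hE
  have hmT₁ : m < T₁ := lt_of_lt_of_le hmT (Finset.le_sup (f := T) hz's)
  have hRε : R ≤ ε / 2 := by
    rcases hor with h | h
    · omega
    · exact h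
  have hne : f^[m] (p z') ≠ f^[m] z' := by
    intro h
    apply (hp z' hz'F).2
    apply iter_back S.bwd m hx1.1
    rw [h]
    exact iter_mem S.fwd (hFK hz'F) m
  have h6 := hεs (z', m) (Finset.mem_product.2 ⟨hz's, Finset.mem_range.2 hmT₁⟩) (dist_pos.2 hne)
  simp only at h6
  rw [hx1.2, hx2.2] at h6
  have h7 := dist_triangle_right x x' (f^[m] z)
  have h8 := mem_ball.1 hx
  have h9 := mem_ball.1 hx'
  linarith

end Pool.Agent.H122.AD211
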